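import Mathlib

/-!
Generic tools: linear combinations with coefficients in `{0,1}` in a module over a ring of
characteristic two, given by lists of indices, compared through binary masks.
-/

namespace Pool.Agent.Q19.LH

open TensorProduct

/-- Bitwise exclusive or of `f a` over the list. -/
noncomputable def xs (f : ℕ → ℕ) (l : List ℕ) : ℕ :=
  List.rec (motive := fun _ => ℕ) 0 (fun a _ ih => Nat.xor (f a) ih) l

/-- Bitwise exclusive or of `f a b` over a list of pairs. -/
noncomputable def xsp (f : ℕ → ℕ → ℕ) (l : List (ℕ × ℕ)) : ℕ :=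
  List.rec (motive := fun _ => ℕ) 0
    (fun p _ ih => Nat.xor (Prod.rec (motive := fun _ => ℕ) (fun a b => f a b) p) ih) l

/-- The binary mask of a list of indices, counted modulo two. -/
noncomputable def mask (l : List ℕ) : ℕ := xs (fun a => Nat.shiftLeft 1 a) l

@[simp] theorem xs_nil (f : ℕ → ℕ) : xs f [] = 0 := rfl

@[simp] theorem xs_cons (f : ℕ → ℕ) (a : ℕ) (l : List ℕ) :
    xs f (a :: l) = Nat.xor (f a) (xs f l) := rfl

@[simp] theorem xsp_nil (f : ℕ → ℕ → ℕ) : xsp f [] = 0 := rfl

@[simp] theorem xsp_cons (f : ℕ → ℕ → ℕ) (p : ℕ × ℕ) (l : List (ℕ × ℕ)) :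
    xsp f (p :: l) = Nat.xor (f p.1 p.2) (xsp f l) := rfl

@[simp] theorem mask_nil : mask [] = 0 := rfl

@[simp] theorem mask_cons (a : ℕ) (l : List ℕ) :
    mask (a :: l) = Nat.xor (Nat.shiftLeft 1 a) (mask l) := rfl

theorem testBit_mask (l : List ℕ) (i : ℕ) :
    (mask l).testBit i = decide (l.count i % 2 = 1) := by
  induction l with
  | nil => simp
  | cons a l ih =>
    have h1 : (Nat.xor (Nat.shiftLeft 1 a) (mask l)).testBit i
        = ((Nat.shiftLeft 1 a).testBit i ^^ (mask l).testBit i) := Nat.testBit_xor _ _ _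
    have h2 : (Nat.shiftLeft 1 a).testBit i = decide (a = i) := by
      have : Nat.shiftLeft 1 a = 2 ^ a := by
        show 1 <<< a = 2 ^ a
        rw [Nat.one_shiftLeft]
      rw [this, Nat.testBit_two_pow]
    rw [mask_cons, h1, h2, ih, List.count_cons]
    by_cases hai : a = i
    · subst hai
      simp only [decide_true, beq_self_eq_true, if_true, Bool.true_xor]
      by_cases hc : l.count a % 2 = 1
      · have : (l.count a + 1) % 2 ≠ 1 := by omega
        simp [hc, this]
      · have : (l.count a + 1) % 2 = 1 := by omega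
        simp [hc, this]
    · have : (a == i) = false := by simpa using hai
      simp [hai, this]

theorem mask_append (l l' : List ℕ) : mask (l ++ l') = Nat.xor (mask l) (mask l') := by
  apply Nat.eq_of_testBit_eq
  intro i
  have h1 : (Nat.xor (mask l) (mask l')).testBit i
        = ((mask l).testBit i ^^ (mask l').testBit i) := Nat.testBit_xor _ _ _
  rw [h1, testBit_mask, testBit_mask, testBit_mask, List.count_append]
  by_cases ha : l.count i % 2 = 1 <;> by_cases hb : l'.count i % 2 = 1
  · have : ¬ (l.count i + l'.count i) % 2 = 1 := by omega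
    simp [ha, hb, this]
  · have : (l.count i + l'.count i) % 2 = 1 := by omega
    simp [ha, hb, this]
  · have : (l.count i + l'.count i) % 2 = 1 := by omega
    simp [ha, hb, this]
  · have : ¬ (l.count i + l'.count i) % 2 = 1 := by omega
    simp [ha, hb, this]

theorem xs_mask (f : ℕ → List ℕ) (l : List ℕ) :
    xs (fun a => mask (f a)) l = mask (l.flatMap f) := by
  induction l with
  | nil => rfl
  | cons a l ih => rw [xs_cons, List.flatMap_cons, mask_append, ih]

theorem xsp_mask (f : ℕ → ℕ → List ℕ) (l : List (ℕ × ℕ)) :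
    xsp (fun a b => mask (f a b)) l = mask (l.flatMap fun p => f p.1 p.2) := by
  induction l with
  | nil => rfl
  | cons a l ih => rw [xsp_cons, List.flatMap_cons, mask_append, ih]

theorem xsp_shift (f : ℕ → ℕ → ℕ) (l : List (ℕ × ℕ)) :
    xsp (fun a b => Nat.shiftLeft 1 (f a b)) l = mask (l.map fun p => f p.1 p.2) := by
  induction l with
  | nil => rfl
  | cons a l ih => rw [xsp_cons, List.map_cons, mask_cons, ih]

/-- Index pairs `64 * i + j % 64` for `i` in the first list, `j` in the second. -/
def pairs (l l' : List ℕ) : List ℕ := l.flatMap fun i => l'.map fun j => 64 * i + j % 64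

/-- The mask of the second list, indices modulo `64`. -/
noncomputable def mask6 (l : List ℕ) : ℕ := xs (fun a => Nat.shiftLeft 1 (Nat.mod a 64)) l

/-- The mask of `pairs`, from the first list and the mask of the second. -/
noncomputable def spr (A : List ℕ) (v : ℕ) : ℕ := xs (fun a => Nat.shiftLeft v (Nat.mul 64 a)) A

theorem spr_mask6 (A B : List ℕ) : spr A (mask6 B) = mask (pairs A B) := by
  have h : ∀ (i : ℕ), mask (B.map fun j => 64 * i + j % 64)
      = Nat.shiftLeft (mask6 B) (Nat.mul 64 i) := by
    intro i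
    induction B with
    | nil =>
      show 0 = 0 <<< (64 * i)
      simp
    | cons b B ih =>
      rw [List.map_cons, mask_cons, ih]
      show (1 <<< (64 * i + b % 64)) ^^^ ((mask6 B) <<< (64 * i))
        = ((1 <<< (b % 64)) ^^^ (mask6 B)) <<< (64 * i)
      rw [Nat.shiftLeft_xor_distrib, ← Nat.shiftLeft_add, Nat.add_comm (b % 64)]
  unfold spr pairs
  rw [← xs_mask]
  congr 1
  funext a
  exact (h a).symm

section

variable {M : Type*} [AddCommGroup M]

/-- The sum of `b i` over the indices `i` in the list. -/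
def ev (b : ℕ → M) (l : List ℕ) : M := (l.map b).sum

@[simp] theorem ev_nil (b : ℕ → M) : ev b [] = 0 := by simp [ev]

@[simp] theorem ev_cons (b : ℕ → M) (a : ℕ) (l : List ℕ) : ev b (a :: l) = b a + ev b l := by
  simp [ev]

theorem ev_append (b : ℕ → M) (l l' : List ℕ) : ev b (l ++ l') = ev b l + ev b l' := by
  simp [ev]

theorem ev_flatMap (b : ℕ → M) (l : List ℕ) (f : ℕ → List ℕ) :
    ev b (l.flatMap f) = ev (fun i => ev b (f i)) l := by
  induction l with
  | nil => simp
  | cons a l ih => simp [List.flatMap_cons, ev_append, ih]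

theorem ev_map (b : ℕ → M) (l : List ℕ) (f : ℕ → ℕ) :
    ev b (l.map f) = ev (fun i => b (f i)) l := by
  induction l with
  | nil => simp
  | cons a l ih => simp [ih]

theorem map_ev {N F : Type*} [AddCommGroup N] [FunLike F M N] [AddMonoidHomClass F M N] (f : F)
    (b : ℕ → M) (l : List ℕ) : f (ev b l) = ev (fun i => f (b i)) l := by
  induction l with
  | nil => simp
  | cons a l ih => simp [ih]

/-- The sum of `b i j` over the pairs `(i, j)` in the list. -/
def evp (b : ℕ → ℕ → M) (l : List (ℕ × ℕ)) : M := (l.map fun p => b p.1 p.2).sum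

@[simp] theorem evp_nil (b : ℕ → ℕ → M) : evp b [] = 0 := by simp [evp]

@[simp] theorem evp_cons (b : ℕ → ℕ → M) (a : ℕ × ℕ) (l : List (ℕ × ℕ)) :
    evp b (a :: l) = b a.1 a.2 + evp b l := by
  simp [evp]

theorem map_evp {N F : Type*} [AddCommGroup N] [FunLike F M N] [AddMonoidHomClass F M N] (f : F)
    (b : ℕ → ℕ → M) (l : List (ℕ × ℕ)) : f (evp b l) = evp (fun i j => f (b i j)) l := by
  induction l with
  | nil => simp
  | cons a l ih => simp [ih]

theorem ev_flatMap_pair (b : ℕ → M) (l : List (ℕ × ℕ)) (f : ℕ × ℕ → List ℕ) :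
    ev b (l.flatMap f) = evp (fun i j => ev b (f (i, j))) l := by
  induction l with
  | nil => simp
  | cons a l ih => simp [List.flatMap_cons, ev_append, ih]

theorem ev_map_pair (b : ℕ → M) (l : List (ℕ × ℕ)) (f : ℕ × ℕ → ℕ) :
    ev b (l.map f) = evp (fun i j => b (f (i, j))) l := by
  induction l with
  | nil => simp
  | cons a l ih => simp [ih]

theorem ev_eq_zero_of_mask (h2 : ∀ x : M, x + x = 0) (b : ℕ → M) (l : List ℕ)
    (h : mask l = 0) : ev b l = 0 := by
  unfold ev
  rw [Finset.sum_list_map_count]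
  apply Finset.sum_eq_zero
  intro i _
  have h1 := testBit_mask l i
  rw [h, Nat.zero_testBit] at h1
  have h3 : ¬ l.count i % 2 = 1 := by
    intro hc
    rw [hc] at h1
    simp at h1
  have h4 : l.count i % 2 = 0 := by omega
  obtain ⟨c, hc⟩ : ∃ c, l.count i = 2 * c := ⟨l.count i / 2, by omega⟩
  rw [hc, mul_comm, mul_nsmul', two_nsmul, h2, nsmul_zero]

theorem ev_eq_of_mask (h2 : ∀ x : M, x + x = 0) (b : ℕ → M) {l l' : List ℕ}
    (h : mask l = mask l') : ev b l = ev b l' := by
  have h0 : mask (l ++ l') = 0 := by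
    rw [mask_append, h]
    exact Nat.xor_self _
  have h3 := ev_eq_zero_of_mask h2 b _ h0
  rw [ev_append] at h3
  have h4 := h2 (ev b l')
  calc ev b l = ev b l + (ev b l' + ev b l') := by rw [h4, add_zero]
    _ = (ev b l + ev b l') + ev b l' := by abel
    _ = ev b l' := by rw [h3, zero_add]

end

theorem all_range {n : ℕ} {p : ℕ → Bool} (h : (List.range n).all p = true) {i : ℕ} (hi : i < n) :
    p i = true := by
  rw [List.all_eq_true] at h
  exact h i (List.mem_range.2 hi)

end Pool.Agent.Q19.LH
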