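import Pool.Agent.Q19.LH.Data

/-!
The finite checks on the structure tables, by kernel evaluation.
-/

namespace Pool.Agent.Q19.LH

/-- `e 0` is a two-sided unit. -/
noncomputable def chkOne : Bool := (List.range 64).all fun j =>
  Nat.beq (mask (T 0 j)) (mask [j]) && Nat.beq (mask (T j 0)) (mask [j])

/-- `e g * (e j * e c) = (e g * e j) * e c`. -/
noncomputable def chkAssoc (g : ℕ) : Bool :=
  (List.range 64).all fun j => (List.range 64).all fun c =>
    Nat.beq (xs (fun l => mask (T l c)) (T g j)) (xs (fun l => mask (T g l)) (T j c))

/-- The words are products of the generators. -/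
noncomputable def chkWord : Bool := (List.range 64).all fun j =>
  Nat.beq j 0 || ((Nat.beq (WG.getD j 0) 1 || Nat.beq (WG.getD j 0) 2) &&
    Nat.ble (WP.getD j 0 + 1) j &&
    Nat.beq (xs (fun l => mask (T (WG.getD j 0) l)) (W (WP.getD j 0))) (mask (W j)))

/-- The basis vectors are sums of words. -/
noncomputable def chkInv : Bool := (List.range 64).all fun i =>
  (C i).all (fun j => Nat.ble (j + 1) 64) && Nat.beq (xs (fun j => mask (W j)) (C i)) (mask [i])

/-- Mask of the comultiplication of `e l`. -/
noncomputable def DM (l : ℕ) : ℕ :=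
  xsp (fun c d => Nat.shiftLeft 1 (Nat.add (Nat.mul 64 c) (Nat.mod d 64))) (D l)

/-- The comultiplication of `e g * e j` is the product of the comultiplications. -/
noncomputable def chkMul (g : ℕ) : Bool := (List.range 64).all fun j =>
  Nat.beq (xs DM (T g j))
    (xsp (fun a b => xsp (fun c d => spr (T a c) (mask6 (T b d))) (D j)) (D g))

/-- Coassociativity at `e g`. -/
noncomputable def chkCoassoc (g : ℕ) : Bool :=
  Nat.beq
    (xsp (fun a b => xsp (fun c d => Nat.shiftLeft 1
      (Nat.add (Nat.mul 4096 c) (Nat.add (Nat.mul 64 (Nat.mod d 64)) (Nat.mod b 64)))) (D a)) (D g))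
    (xsp (fun a b => xsp (fun c d => Nat.shiftLeft 1
      (Nat.add (Nat.mul 4096 a) (Nat.add (Nat.mul 64 (Nat.mod c 64)) (Nat.mod d 64)))) (D b)) (D g))

/-- Counit laws at `e g`. -/
noncomputable def chkCounit (g : ℕ) : Bool :=
  Nat.beq (xsp (fun a b => mask (bif Nat.beq (Nat.mod a 64) 0 then [b] else [])) (D g))
    (mask [g]) &&
  Nat.beq (xsp (fun a b => mask (bif Nat.beq (Nat.mod b 64) 0 then [a] else [])) (D g))
    (mask [g])

/-- Antipode laws. -/
noncomputable def chkAnti : Bool := (List.range 64).all fun k =>
  Nat.beq (xsp (fun a b => xs (fun i => mask (T i b)) (S a)) (D k))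
    (mask (bif Nat.beq k 0 then [0] else [])) &&
  Nat.beq (xsp (fun a b => xs (fun i => mask (T a i)) (S b)) (D k))
    (mask (bif Nat.beq k 0 then [0] else []))

/-- For `i ≠ 0`, multiplication by `e i` on the left raises the index. -/
noncomputable def chkFilt : Bool := (List.range 64).all fun i => Nat.beq i 0 ||
  (List.range 64).all fun j => (T i j).all fun l => Nat.ble (j + 1) l && Nat.ble (l + 1) 64

/-- `e 63` is a sum of commutators. -/
noncomputable def chkComm : Bool :=
  Nat.beq (xsp (fun a b => Nat.xor (mask (T a b)) (mask (T b a))) CP) (mask [63])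

theorem chkOne_true : chkOne = true := by decide +kernel

theorem chkWord_true : chkWord = true := by decide +kernel

theorem chkInv_true : chkInv = true := by decide +kernel

theorem chkComm_true : chkComm = true := by decide +kernel

theorem chkFilt_true : chkFilt = true := by decide +kernel

theorem chkCoassoc_true1 : chkCoassoc 1 = true := by decide +kernel

theorem chkCoassoc_true2 : chkCoassoc 2 = true := by decide +kernel

theorem chkCounit_true1 : chkCounit 1 = true := by decide +kernel

theorem chkCounit_true2 : chkCounit 2 = true := by decide +kernel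

theorem chkAssoc_true1 : chkAssoc 1 = true := by decide +kernel

theorem chkAssoc_true2 : chkAssoc 2 = true := by decide +kernel

theorem chkAnti_true : chkAnti = true := by decide +kernel

theorem chkMul_true2 : chkMul 2 = true := by decide +kernel

theorem chkMul_true1 : chkMul 1 = true := by decide +kernel

end Pool.Agent.Q19.LH
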