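import Pool.Agent.Q19.LH.Checks

/-!
The 64-dimensional Hopf algebra over a field of characteristic two given by the tables.
-/

namespace Pool.Agent.Q19.LH

open TensorProduct

universe u

/-- The underlying space: functions on a set with 64 elements. -/
def H (k : Type u) : Type u := Fin 64 → k

section

variable (k : Type u) [Field k]

noncomputable instance instACG : AddCommGroup (H k) := inferInstanceAs (AddCommGroup (Fin 64 → k))

noncomputable instance instModule : Module k (H k) := inferInstanceAs (Module k (Fin 64 → k))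

/-- The standard basis. -/
noncomputable def bH : Module.Basis (Fin 64) k (H k) := Pi.basisFun k (Fin 64)

/-- The basis vectors, indexed by natural numbers modulo `64`. -/
noncomputable def e (n : ℕ) : H k := bH k (Fin.ofNat 64 n)

theorem e_mod (n : ℕ) : e k (n % 64) = e k n := by
  unfold e
  congr 1
  apply Fin.ext
  simp [Fin.ofNat]

variable {k}

theorem bH_eq (i : Fin 64) : bH k i = e k i.val := by
  unfold e
  congr 1
  apply Fin.ext
  simp [Fin.ofNat, Nat.mod_eq_of_lt i.isLt]

variable {M : Type*} [AddCommGroup M] [Module k M]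

/-- The linear map with given values on the basis vectors. -/
noncomputable def lin (f : ℕ → M) : H k →ₗ[k] M := (bH k).constr k fun i => f i.val

theorem lin_e (f : ℕ → M) (hf : ∀ n, f (n % 64) = f n) (n : ℕ) : lin f (e k n) = f n := by
  unfold lin e
  rw [Module.Basis.constr_basis, ← hf n]
  rfl

theorem lin_e_lt (f : ℕ → M) (n : ℕ) (hn : n < 64) : lin f (e k n) = f n := by
  unfold lin e
  rw [Module.Basis.constr_basis]
  congr 1
  simp [Fin.ofNat, Nat.mod_eq_of_lt hn]

theorem lin_ext {f g : H k →ₗ[k] M} (h : ∀ n, n < 64 → f (e k n) = g (e k n)) : f = g := by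
  apply (bH k).ext
  intro i
  rw [bH_eq]
  exact h _ i.isLt

/-- Induction on vectors. -/
theorem vec_ind (P : H k → Prop) (h0 : P 0) (hadd : ∀ a b, P a → P b → P (a + b))
    (hsmul : ∀ (c : k) a, P a → P (c • a)) (he : ∀ n, n < 64 → P (e k n)) (a : H k) : P a := by
  have h1 : a ∈ Submodule.span k (Set.range (bH k)) := by
    rw [(bH k).span_eq]
    trivial
  induction h1 using Submodule.span_induction with
  | mem x hx =>
    obtain ⟨i, rfl⟩ := hx
    rw [bH_eq]
    exact he _ i.isLt
  | zero => exact h0
  | add x y _ _ hx hy => exact hadd x y hx hy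
  | smul c x _ hx => exact hsmul c x hx

variable (k) in
theorem add_self_zero [CharP k 2] (x : M) : x + x = 0 := by
  have h : (2 : k) = 0 := CharTwo.two_eq_zero
  rw [← two_smul k x, h, zero_smul]

variable (k)

/-- The multiplication as a bilinear map. -/
noncomputable def mulL : H k →ₗ[k] H k →ₗ[k] H k :=
  lin fun i => lin fun j => ev (e k) (T i j)

theorem mulL_e (i j : ℕ) : mulL k (e k i) (e k j) = ev (e k) (T i j) := by
  have h1 : mulL k (e k i) = lin fun j => ev (e k) (T i j) := by
    unfold mulL
    apply lin_e (f := fun i => lin (k := k) fun j => ev (e k) (T i j))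
    intro n
    congr 1
    funext j
    rw [← T_mod (n % 64) j, Nat.mod_mod, T_mod]
  rw [h1]
  apply lin_e (f := fun j => ev (e k) (T i j))
  intro n
  show ev (e k) (T i (n % 64)) = ev (e k) (T i n)
  rw [← T_mod i (n % 64), Nat.mod_mod, T_mod]

theorem mulL_ev_e (l : List ℕ) (j : ℕ) :
    mulL k (ev (e k) l) (e k j) = ev (e k) (l.flatMap fun i => T i j) := by
  have h : (mulL k).flip (e k j) (ev (e k) l) = ev (e k) (l.flatMap fun i => T i j) := by
    rw [map_ev, ev_flatMap]
    congr 1
    funext i
    rw [LinearMap.flip_apply, mulL_e]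
  exact h

theorem mulL_e_ev (i : ℕ) (l : List ℕ) :
    mulL k (e k i) (ev (e k) l) = ev (e k) (l.flatMap fun j => T i j) := by
  rw [map_ev, ev_flatMap]
  congr 1
  funext j
  rw [mulL_e]

theorem mulL_one_left (a : H k) [CharP k 2] : mulL k (e k 0) a = a := by
  have h : mulL k (e k 0) = LinearMap.id := by
    apply lin_ext
    intro j hj
    have h1 := all_range chkOne_true hj
    rw [Bool.and_eq_true] at h1
    have h2 := Nat.eq_of_beq_eq_true h1.1
    rw [mulL_e, ev_eq_of_mask (add_self_zero k) (e k) h2]
    simp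
  rw [h]
  rfl

theorem mulL_one_right (a : H k) [CharP k 2] : mulL k a (e k 0) = a := by
  have h : (mulL k).flip (e k 0) = LinearMap.id := by
    apply lin_ext
    intro j hj
    have h1 := all_range chkOne_true hj
    rw [Bool.and_eq_true] at h1
    have h2 := Nat.eq_of_beq_eq_true h1.2
    rw [LinearMap.flip_apply, mulL_e, ev_eq_of_mask (add_self_zero k) (e k) h2]
    simp
  have h2 := LinearMap.congr_fun h a
  exact h2

/-- Everything is generated by `e 1` and `e 2`. -/
theorem gen [CharP k 2] (P : H k → Prop) (h1 : P (e k 0)) (hX : P (e k 1)) (hY : P (e k 2))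
    (hadd : ∀ a b, P a → P b → P (a + b)) (hsmul : ∀ (c : k) a, P a → P (c • a))
    (hmul : ∀ a b, P a → P b → P (mulL k a b)) (a : H k) : P a := by
  have h0 : P 0 := by
    have := hsmul 0 _ h1
    rwa [zero_smul] at this
  have hev : ∀ (b : ℕ → H k) (l : List ℕ), (∀ i ∈ l, P (b i)) → P (ev b l) := by
    intro b l
    induction l with
    | nil => intro _; simpa using h0
    | cons i l ih =>
      intro h
      rw [ev_cons]
      exact hadd _ _ (h i (by simp)) (ih fun j hj => h j (by simp [hj]))
  have hW0 : W 0 = [0] := by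
    unfold W WL
    rfl
  have hword : ∀ j, j < 64 → P (ev (e k) (W j)) := by
    intro j
    induction j using Nat.strong_induction_on with
    | _ j ih =>
      intro hj
      have hc := all_range chkWord_true hj
      rw [Bool.or_eq_true] at hc
      rcases hc with hc | hc
      · have hj0 : j = 0 := Nat.eq_of_beq_eq_true hc
        subst hj0
        rw [hW0]
        simpa using h1
      · rw [Bool.and_eq_true, Bool.and_eq_true, Bool.or_eq_true] at hc
        obtain ⟨⟨hg, hp⟩, hm⟩ := hc
        have hp' : WP.getD j 0 + 1 ≤ j := Nat.le_of_ble_eq_true hp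
        have hm' := Nat.eq_of_beq_eq_true hm
        rw [xs_mask] at hm'
        have h3 : ev (e k) (W j)
            = mulL k (e k (WG.getD j 0)) (ev (e k) (W (WP.getD j 0))) := by
          rw [← ev_eq_of_mask (add_self_zero k) (e k) hm', mulL_e_ev]
        rw [h3]
        apply hmul
        · rcases hg with hg | hg
          · rw [Nat.eq_of_beq_eq_true hg]; exact hX
          · rw [Nat.eq_of_beq_eq_true hg]; exact hY
        · exact ih _ (by omega) (by omega)
  apply vec_ind P h0 hadd hsmul
  intro n hn
  have hc := all_range chkInv_true hn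
  rw [Bool.and_eq_true] at hc
  have hc2 := Nat.eq_of_beq_eq_true hc.2
  rw [xs_mask] at hc2
  have h3 := ev_eq_of_mask (add_self_zero k) (e k) hc2
  rw [ev_flatMap] at h3
  have h4 : ev (e k) [n] = e k n := by simp
  rw [h4] at h3
  rw [← h3]
  apply hev
  intro i hi
  apply hword
  have h5 := hc.1
  rw [List.all_eq_true] at h5
  exact Nat.le_of_ble_eq_true (h5 i hi)

theorem mulL_assoc [CharP k 2] (a b c : H k) :
    mulL k (mulL k a b) c = mulL k a (mulL k b c) := by
  have key : ∀ g, chkAssoc g = true → ∀ b c : H k,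
      mulL k (mulL k (e k g) b) c = mulL k (e k g) (mulL k b c) := by
    intro g hg b c
    have h1 : (mulL k) ∘ₗ (mulL k (e k g)) = ((mulL k).compr₂ (mulL k (e k g))) := by
      apply lin_ext
      intro j hj
      apply lin_ext
      intro c hc
      have h2 := all_range (all_range hg hj) hc
      have h3 := Nat.eq_of_beq_eq_true h2
      rw [xs_mask, xs_mask] at h3
      have h4 := ev_eq_of_mask (add_self_zero k) (e k) h3
      rw [LinearMap.comp_apply, LinearMap.compr₂_apply, mulL_e, mulL_e, mulL_ev_e, mulL_e_ev, h4]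
    exact LinearMap.congr_fun (LinearMap.congr_fun h1 b) c
  revert b c
  apply gen k (fun a => ∀ b c, mulL k (mulL k a b) c = mulL k a (mulL k b c))
  · intro b c
    rw [mulL_one_left, mulL_one_left]
  · exact key 1 chkAssoc_true1
  · exact key 2 chkAssoc_true2
  · intro a b ha hb c d
    simp only [map_add, LinearMap.add_apply, ha, hb]
  · intro c a ha b d
    simp only [map_smul, LinearMap.smul_apply, ha]
  · intro a b ha hb c d
    rw [ha b c, ha _ d, hb c d, ← ha b]

variable [CharP k 2]

noncomputable instance instRing : Ring (H k) :=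
  { instACG k with
    mul := fun a b => mulL k a b
    one := e k 0
    zero_mul := fun a => by
      show mulL k 0 a = 0
      simp
    mul_zero := fun a => by
      show mulL k a 0 = 0
      simp
    left_distrib := fun a b c => by
      show mulL k a (b + c) = mulL k a b + mulL k a c
      simp
    right_distrib := fun a b c => by
      show mulL k (a + b) c = mulL k a c + mulL k b c
      simp
    mul_assoc := fun a b c => mulL_assoc k a b c
    one_mul := fun a => mulL_one_left k a
    mul_one := fun a => mulL_one_right k a }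

theorem mul_def (a b : H k) : a * b = mulL k a b := rfl

theorem one_def : (1 : H k) = e k 0 := rfl

noncomputable instance instAlgebra : Algebra k (H k) :=
  Algebra.ofModule
    (fun r x y => by
      rw [mul_def, mul_def, map_smul, LinearMap.smul_apply])
    (fun r x y => by
      rw [mul_def, mul_def, map_smul])

theorem e_mul_e (i j : ℕ) : e k i * e k j = ev (e k) (T i j) := mulL_e k i j

theorem ev_mul_e (l : List ℕ) (j : ℕ) :
    ev (e k) l * e k j = ev (e k) (l.flatMap fun i => T i j) := mulL_ev_e k l j

theorem e_mul_ev (i : ℕ) (l : List ℕ) :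
    e k i * ev (e k) l = ev (e k) (l.flatMap fun j => T i j) := mulL_e_ev k i l

/-- Everything is generated by `e 1` and `e 2`, in terms of the ring structure. -/
theorem gen' (P : H k → Prop) (h1 : P 1) (hX : P (e k 1)) (hY : P (e k 2))
    (hadd : ∀ a b, P a → P b → P (a + b)) (hsmul : ∀ (c : k) a, P a → P (c • a))
    (hmul : ∀ a b, P a → P b → P (a * b)) (a : H k) : P a :=
  gen k P h1 hX hY hadd hsmul hmul a

theorem algHom_ext {B : Type*} [Semiring B] [Algebra k B] {f g : H k →ₐ[k] B}
    (h1 : f (e k 1) = g (e k 1)) (h2 : f (e k 2) = g (e k 2)) : f = g := by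
  apply AlgHom.ext
  intro a
  apply gen' k (fun a => f a = g a)
  · rw [map_one, map_one]
  · exact h1
  · exact h2
  · intro a b ha hb
    rw [map_add, map_add, ha, hb]
  · intro c a ha
    rw [map_smul, map_smul, ha]
  · intro a b ha hb
    rw [map_mul, map_mul, ha, hb]

/-- Basis of the tensor square, pairs encoded as `64 * i + j`. -/
noncomputable def b2 (n : ℕ) : H k ⊗[k] H k := e k (n / 64) ⊗ₜ[k] e k n

theorem b2_code (i j : ℕ) : b2 k (64 * i + j % 64) = e k i ⊗ₜ[k] e k j := by
  unfold b2
  have h1 : (64 * i + j % 64) / 64 = i := by omega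
  have h2 : e k (64 * i + j % 64) = e k j := by
    rw [← e_mod k (64 * i + j % 64), ← e_mod k j]
    congr 1
    omega
  rw [h1, h2]

/-- The comultiplication as a linear map. -/
noncomputable def comulL : H k →ₗ[k] H k ⊗[k] H k :=
  lin fun i => evp (fun a b => e k a ⊗ₜ[k] e k b) (D i)

theorem comulL_e (i : ℕ) : comulL k (e k i) = evp (fun a b => e k a ⊗ₜ[k] e k b) (D i) := by
  apply lin_e
  intro n
  show evp _ (D (n % 64)) = _
  rw [D_mod]

theorem evp_e_eq (l : List (ℕ × ℕ)) : evp (fun a b => e k a ⊗ₜ[k] e k b) l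
    = ev (b2 k) (l.map fun p => 64 * p.1 + p.2 % 64) := by
  rw [ev_map_pair]
  congr 1
  funext a b
  rw [b2_code]

theorem ev_tmul_ev (l l' : List ℕ) :
    ev (e k) l ⊗ₜ[k] ev (e k) l' = ev (b2 k) (pairs l l') := by
  unfold pairs
  rw [ev_flatMap]
  have h : ∀ i, ev (b2 k) (l'.map fun j => 64 * i + j % 64) = e k i ⊗ₜ[k] ev (e k) l' := by
    intro i
    rw [ev_map]
    have h1 : e k i ⊗ₜ[k] ev (e k) l' = TensorProduct.mk k (H k) (H k) (e k i) (ev (e k) l') := rfl
    rw [h1, map_ev]
    congr 1
    funext j
    rw [b2_code]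
    rfl
  have h2 : ev (e k) l ⊗ₜ[k] ev (e k) l'
      = (TensorProduct.mk k (H k) (H k)).flip (ev (e k) l') (ev (e k) l) := rfl
  rw [h2, map_ev]
  congr 1
  funext i
  rw [h]
  rfl

theorem evp_mul_evp (l l' : List (ℕ × ℕ)) :
    evp (fun a b => e k a ⊗ₜ[k] e k b) l * evp (fun a b => e k a ⊗ₜ[k] e k b) l'
      = ev (b2 k) (l.flatMap fun p => l'.flatMap fun q => pairs (T p.1 q.1) (T p.2 q.2)) := by
  rw [ev_flatMap_pair]
  have h1 : ∀ x : H k ⊗[k] H k, evp (fun a b => e k a ⊗ₜ[k] e k b) l * x
      = evp (fun a b => (e k a ⊗ₜ[k] e k b) * x) l := by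
    intro x
    exact map_evp (LinearMap.mulRight k x) _ l
  rw [h1]
  congr 1
  funext a b
  rw [ev_flatMap_pair]
  have h2 : ∀ x : H k ⊗[k] H k, x * evp (fun a b => e k a ⊗ₜ[k] e k b) l'
      = evp (fun a b => x * (e k a ⊗ₜ[k] e k b)) l' := by
    intro x
    exact map_evp (LinearMap.mulLeft k x) _ l'
  rw [h2]
  congr 1
  funext c d
  rw [Algebra.TensorProduct.tmul_mul_tmul, e_mul_e, e_mul_e, ev_tmul_ev]

theorem comulL_one : comulL k 1 = 1 := by
  have hD0 : D 0 = [(0, 0)] := by
    unfold D DL
    rfl
  rw [one_def, comulL_e, hD0]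
  simp [Algebra.TensorProduct.one_def, one_def]

theorem comulL_mul (a b : H k) : comulL k (a * b) = comulL k a * comulL k b := by
  have key : ∀ g, chkMul g = true → ∀ b : H k,
      comulL k (e k g * b) = comulL k (e k g) * comulL k b := by
    intro g hg b
    have h1 : comulL k ∘ₗ LinearMap.mulLeft k (e k g)
        = LinearMap.mulLeft k (comulL k (e k g)) ∘ₗ comulL k := by
      apply lin_ext
      intro j hj
      have h2 := Nat.eq_of_beq_eq_true (all_range hg hj)
      have h3 : ∀ l, DM l = mask ((D l).map fun p => 64 * p.1 + p.2 % 64) := by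
        intro l
        unfold DM
        rw [xsp_shift (fun c d => Nat.add (Nat.mul 64 c) (Nat.mod d 64))]
        rfl
      have h4 : ∀ a b : ℕ, xsp (fun c d => spr (T a c) (mask6 (T b d))) (D j)
          = mask ((D j).flatMap fun q => pairs (T a q.1) (T b q.2)) := by
        intro a b
        rw [← xsp_mask (fun c d => pairs (T a c) (T b d))]
        congr 1
        funext c d
        rw [spr_mask6]
      have h5 : DM = fun l => mask ((D l).map fun p => 64 * p.1 + p.2 % 64) := funext h3
      rw [h5, xs_mask (fun l => (D l).map fun p => 64 * p.1 + p.2 % 64)] at h2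
      have h6 : (fun a b => xsp (fun c d => spr (T a c) (mask6 (T b d))) (D j))
          = fun a b => mask ((D j).flatMap fun q => pairs (T a q.1) (T b q.2)) := by
        funext a b
        exact h4 a b
      rw [h6, xsp_mask (fun a b => (D j).flatMap fun q => pairs (T a q.1) (T b q.2))] at h2
      have h7 := ev_eq_of_mask (add_self_zero k) (b2 k) h2
      rw [LinearMap.comp_apply, LinearMap.comp_apply, LinearMap.mulLeft_apply,
        LinearMap.mulLeft_apply, e_mul_e, map_ev, comulL_e, comulL_e, evp_mul_evp]
      refine Eq.trans ?_ h7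
      rw [ev_flatMap]
      congr 1
      funext i
      rw [comulL_e, evp_e_eq]
    exact LinearMap.congr_fun h1 b
  revert b
  apply gen' k (fun a => ∀ b, comulL k (a * b) = comulL k a * comulL k b)
  · intro b
    rw [one_mul, comulL_one, one_mul]
  · exact key 1 chkMul_true1
  · exact key 2 chkMul_true2
  · intro a b ha hb c
    rw [add_mul, map_add, map_add, add_mul, ha, hb]
  · intro c a ha b
    rw [smul_mul_assoc, map_smul, map_smul, smul_mul_assoc, ha]
  · intro a b ha hb c
    rw [mul_assoc, ha, hb, ha, mul_assoc]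

/-- The comultiplication. -/
noncomputable def comulA : H k →ₐ[k] H k ⊗[k] H k :=
  AlgHom.ofLinearMap (comulL k) (comulL_one k) (comulL_mul k)

theorem comulA_e (i : ℕ) : comulA k (e k i) = evp (fun a b => e k a ⊗ₜ[k] e k b) (D i) :=
  comulL_e k i

/-- The counit as a linear map. -/
noncomputable def counitL : H k →ₗ[k] k := lin fun i => if i % 64 = 0 then 1 else 0

theorem counitL_e (i : ℕ) : counitL k (e k i) = if i % 64 = 0 then 1 else 0 := by
  apply lin_e
  intro n
  show (if n % 64 % 64 = 0 then (1 : k) else 0) = if n % 64 = 0 then 1 else 0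
  rw [Nat.mod_mod]

theorem counitL_one : counitL k 1 = 1 := by
  rw [one_def, counitL_e]
  simp

theorem filt {i j l : ℕ} (hi : i < 64) (hi0 : i ≠ 0) (hj : j < 64) (hl : l ∈ T i j) :
    j < l ∧ l < 64 := by
  have h := all_range chkFilt_true hi
  rw [Bool.or_eq_true] at h
  rcases h with h | h
  · exact absurd (Nat.eq_of_beq_eq_true h) hi0
  · have h2 := all_range h hj
    rw [List.all_eq_true] at h2
    have h3 := h2 l hl
    rw [Bool.and_eq_true] at h3
    exact ⟨Nat.le_of_ble_eq_true h3.1, Nat.le_of_ble_eq_true h3.2⟩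

theorem counitL_mul (a b : H k) : counitL k (a * b) = counitL k a * counitL k b := by
  have hz : ∀ l : List ℕ, (∀ i ∈ l, i % 64 ≠ 0) → counitL k (ev (e k) l) = 0 := by
    intro l
    induction l with
    | nil => intro _; simp
    | cons i l ih =>
      intro h
      rw [ev_cons, map_add, counitL_e, if_neg (h i (by simp)), zero_add]
      exact ih fun j hj => h j (by simp [hj])
  have key : ∀ g, 0 < g → g < 64 → ∀ b : H k,
      counitL k (e k g * b) = counitL k (e k g) * counitL k b := by
    intro g hg hg2 b
    have h1 : counitL k ∘ₗ LinearMap.mulLeft k (e k g)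
        = LinearMap.mulLeft k (counitL k (e k g)) ∘ₗ counitL k := by
      apply lin_ext
      intro j hj
      rw [LinearMap.comp_apply, LinearMap.comp_apply, LinearMap.mulLeft_apply,
        LinearMap.mulLeft_apply, e_mul_e, counitL_e k g, if_neg (by omega), zero_mul]
      apply hz
      intro i hi
      have := filt hg2 (by omega) hj hi
      omega
    exact LinearMap.congr_fun h1 b
  revert b
  apply gen' k (fun a => ∀ b, counitL k (a * b) = counitL k a * counitL k b)
  · intro b
    rw [one_mul, counitL_one, one_mul]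
  · exact key 1 (by norm_num) (by norm_num)
  · exact key 2 (by norm_num) (by norm_num)
  · intro a b ha hb c
    rw [add_mul, map_add, map_add, add_mul, ha, hb]
  · intro c a ha b
    rw [smul_mul_assoc, map_smul, map_smul, smul_mul_assoc, ha]
  · intro a b ha hb c
    rw [mul_assoc, ha, hb, ha, mul_assoc]

/-- The counit. -/
noncomputable def counitA : H k →ₐ[k] k :=
  AlgHom.ofLinearMap (counitL k) (counitL_one k) (counitL_mul k)

theorem counitA_e (i : ℕ) : counitA k (e k i) = if i % 64 = 0 then 1 else 0 := counitL_e k i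

/-- Spanning family of the threefold tensor product, triples encoded as
`4096 * i + (64 * j + l)`. -/
noncomputable def b3 (n : ℕ) : H k ⊗[k] (H k ⊗[k] H k) :=
  e k (n / 4096) ⊗ₜ[k] (e k (n / 64) ⊗ₜ[k] e k n)

theorem b3_code (a b c : ℕ) :
    b3 k (4096 * a + (64 * (b % 64) + c % 64)) = e k a ⊗ₜ[k] (e k b ⊗ₜ[k] e k c) := by
  unfold b3
  have h1 : (4096 * a + (64 * (b % 64) + c % 64)) / 4096 = a := by omega
  have h2 : e k ((4096 * a + (64 * (b % 64) + c % 64)) / 64) = e k b := by
    rw [← e_mod k ((4096 * a + (64 * (b % 64) + c % 64)) / 64), ← e_mod k b]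
    congr 1
    omega
  have h3 : e k (4096 * a + (64 * (b % 64) + c % 64)) = e k c := by
    rw [← e_mod k (4096 * a + (64 * (b % 64) + c % 64)), ← e_mod k c]
    congr 1
    omega
  rw [h1, h2, h3]

theorem coassoc_e (g : ℕ) (hg : chkCoassoc g = true) :
    ((Algebra.TensorProduct.assoc k k k (H k) (H k) (H k)).toAlgHom.comp
      ((Algebra.TensorProduct.map (comulA k) (.id k (H k))).comp (comulA k))) (e k g)
      = ((Algebra.TensorProduct.map (.id k (H k)) (comulA k)).comp (comulA k)) (e k g) := by
  have h := Nat.eq_of_beq_eq_true hg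
  have hL : (fun a b => xsp (fun c d => Nat.shiftLeft 1
      (Nat.add (Nat.mul 4096 c) (Nat.add (Nat.mul 64 (Nat.mod d 64)) (Nat.mod b 64)))) (D a))
      = fun a b => mask ((D a).map fun q => 4096 * q.1 + (64 * (q.2 % 64) + b % 64)) := by
    funext a b
    rw [xsp_shift (fun c d =>
      Nat.add (Nat.mul 4096 c) (Nat.add (Nat.mul 64 (Nat.mod d 64)) (Nat.mod b 64)))]
    rfl
  have hR : (fun a b => xsp (fun c d => Nat.shiftLeft 1
      (Nat.add (Nat.mul 4096 a) (Nat.add (Nat.mul 64 (Nat.mod c 64)) (Nat.mod d 64)))) (D b))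
      = fun a b => mask ((D b).map fun q => 4096 * a + (64 * (q.1 % 64) + q.2 % 64)) := by
    funext a b
    rw [xsp_shift (fun c d =>
      Nat.add (Nat.mul 4096 a) (Nat.add (Nat.mul 64 (Nat.mod c 64)) (Nat.mod d 64)))]
    rfl
  rw [hL, hR, xsp_mask (fun a b => (D a).map fun q => 4096 * q.1 + (64 * (q.2 % 64) + b % 64)),
    xsp_mask (fun a b => (D b).map fun q => 4096 * a + (64 * (q.1 % 64) + q.2 % 64))] at h
  have h2 := ev_eq_of_mask (add_self_zero k) (b3 k) h
  rw [ev_flatMap_pair, ev_flatMap_pair] at h2
  rw [AlgHom.comp_apply, AlgHom.comp_apply, AlgHom.comp_apply, comulA_e, map_evp, map_evp,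
    map_evp]
  have h3 : (fun i j => (Algebra.TensorProduct.assoc k k k (H k) (H k) (H k)).toAlgHom
      ((Algebra.TensorProduct.map (comulA k) (.id k (H k))) (e k i ⊗ₜ[k] e k j)))
      = fun i j => ev (b3 k) ((D i).map fun q => 4096 * q.1 + (64 * (q.2 % 64) + j % 64)) := by
    funext i j
    rw [Algebra.TensorProduct.map_tmul, comulA_e, ev_map_pair, AlgHom.id_apply]
    have h4 : (Algebra.TensorProduct.assoc k k k (H k) (H k) (H k)).toAlgHom
        (evp (fun a b => e k a ⊗ₜ[k] e k b) (D i) ⊗ₜ[k] e k j)
        = evp (fun a b => (Algebra.TensorProduct.assoc k k k (H k) (H k) (H k)).toAlgHom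
          ((e k a ⊗ₜ[k] e k b) ⊗ₜ[k] e k j)) (D i) := by
      exact map_evp ((Algebra.TensorProduct.assoc k k k (H k) (H k) (H k)).toAlgHom.toLinearMap ∘ₗ
        ((TensorProduct.mk k (H k ⊗[k] H k) (H k)).flip (e k j))) _ (D i)
    rw [h4]
    congr 1
    funext a b
    rw [b3_code]
    rfl
  have h5 : (fun i j => (Algebra.TensorProduct.map (.id k (H k)) (comulA k))
      (e k i ⊗ₜ[k] e k j))
      = fun i j => ev (b3 k) ((D j).map fun q => 4096 * i + (64 * (q.1 % 64) + q.2 % 64)) := by
    funext i j
    rw [Algebra.TensorProduct.map_tmul, comulA_e, ev_map_pair, AlgHom.id_apply]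
    have h4 : e k i ⊗ₜ[k] evp (fun a b => e k a ⊗ₜ[k] e k b) (D j)
        = evp (fun a b => e k i ⊗ₜ[k] (e k a ⊗ₜ[k] e k b)) (D j) := by
      exact map_evp (TensorProduct.mk k (H k) (H k ⊗[k] H k) (e k i)) _ (D j)
    rw [h4]
    congr 1
    funext a b
    rw [b3_code]
  rw [h3, h5]
  exact h2

theorem rTensor_e (g : ℕ) (hg : chkCounit g = true) :
    ((Algebra.TensorProduct.map (counitA k) (.id k (H k))).comp (comulA k)) (e k g)
      = (Algebra.TensorProduct.lid k (H k)).symm (e k g) := by
  unfold chkCounit at hg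
  rw [Bool.and_eq_true] at hg
  have h := Nat.eq_of_beq_eq_true hg.1
  rw [xsp_mask (fun a b => bif Nat.beq (Nat.mod a 64) 0 then [b] else [])] at h
  have h2 := ev_eq_of_mask (add_self_zero k) (e k) h
  rw [ev_flatMap_pair] at h2
  have h3 : ev (e k) [g] = e k g := by simp
  rw [h3] at h2
  rw [← (Algebra.TensorProduct.lid k (H k)).injective.eq_iff]
  rw [AlgEquiv.apply_symm_apply, AlgHom.comp_apply, comulA_e, map_evp, map_evp]
  refine Eq.trans ?_ h2
  congr 1
  funext a b
  rw [Algebra.TensorProduct.map_tmul, counitA_e, AlgHom.id_apply, Algebra.TensorProduct.lid_tmul]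
  by_cases ha : a % 64 = 0
  · have : Nat.beq (Nat.mod a 64) 0 = true := by
      show Nat.beq (a % 64) 0 = true
      rw [ha]
      rfl
    rw [if_pos ha, this]
    simp
  · have : Nat.beq (Nat.mod a 64) 0 = false := by
      show Nat.beq (a % 64) 0 = false
      rw [← Bool.not_eq_true]
      intro h
      exact ha (Nat.eq_of_beq_eq_true h)
    rw [if_neg ha, this]
    simp

theorem lTensor_e (g : ℕ) (hg : chkCounit g = true) :
    ((Algebra.TensorProduct.map (.id k (H k)) (counitA k)).comp (comulA k)) (e k g)
      = (Algebra.TensorProduct.rid k k (H k)).symm (e k g) := by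
  unfold chkCounit at hg
  rw [Bool.and_eq_true] at hg
  have h := Nat.eq_of_beq_eq_true hg.2
  rw [xsp_mask (fun a b => bif Nat.beq (Nat.mod b 64) 0 then [a] else [])] at h
  have h2 := ev_eq_of_mask (add_self_zero k) (e k) h
  rw [ev_flatMap_pair] at h2
  have h3 : ev (e k) [g] = e k g := by simp
  rw [h3] at h2
  rw [← (Algebra.TensorProduct.rid k k (H k)).injective.eq_iff]
  rw [AlgEquiv.apply_symm_apply, AlgHom.comp_apply, comulA_e, map_evp, map_evp]
  refine Eq.trans ?_ h2
  congr 1
  funext a b
  rw [Algebra.TensorProduct.map_tmul, counitA_e, AlgHom.id_apply, Algebra.TensorProduct.rid_tmul]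
  by_cases ha : b % 64 = 0
  · have : Nat.beq (Nat.mod b 64) 0 = true := by
      show Nat.beq (b % 64) 0 = true
      rw [ha]
      rfl
    rw [if_pos ha, this]
    simp
  · have : Nat.beq (Nat.mod b 64) 0 = false := by
      show Nat.beq (b % 64) 0 = false
      rw [← Bool.not_eq_true]
      intro h
      exact ha (Nat.eq_of_beq_eq_true h)
    rw [if_neg ha, this]
    simp

noncomputable instance instBialgebra : Bialgebra k (H k) :=
  Bialgebra.ofAlgHom (comulA k) (counitA k)
    (algHom_ext k (coassoc_e k 1 chkCoassoc_true1) (coassoc_e k 2 chkCoassoc_true2))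
    (algHom_ext k (rTensor_e k 1 chkCounit_true1) (rTensor_e k 2 chkCounit_true2))
    (algHom_ext k (lTensor_e k 1 chkCounit_true1) (lTensor_e k 2 chkCounit_true2))

/-- The antipode. -/
noncomputable def antiL : H k →ₗ[k] H k := lin fun i => ev (e k) (S i)

theorem antiL_e (i : ℕ) : antiL k (e k i) = ev (e k) (S i) := by
  apply lin_e
  intro n
  show ev (e k) (S (n % 64)) = _
  rw [S_mod]

theorem comul_e (i : ℕ) : (Coalgebra.comul (R := k) (e k i) : H k ⊗[k] H k)
    = evp (fun a b => e k a ⊗ₜ[k] e k b) (D i) := comulL_e k i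

theorem counit_e (i : ℕ) : (Coalgebra.counit (R := k) (e k i) : k)
    = if i % 64 = 0 then 1 else 0 := counitL_e k i

theorem unit_e {i : ℕ} (hi : i < 64) : (Algebra.linearMap k (H k)) (Coalgebra.counit (e k i))
    = ev (e k) (bif Nat.beq i 0 then [0] else []) := by
  rw [counit_e, Algebra.linearMap_apply, Nat.mod_eq_of_lt hi]
  by_cases h0 : i = 0
  · subst h0
    rw [if_pos rfl, map_one, one_def]
    show e k 0 = ev (e k) [0]
    simp
  · have : Nat.beq i 0 = false := by
      rw [← Bool.not_eq_true]
      intro h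
      exact h0 (Nat.eq_of_beq_eq_true h)
    rw [if_neg h0, this, map_zero]
    simp

noncomputable instance instHopf : HopfAlgebra k (H k) where
  antipode := antiL k
  mul_antipode_rTensor_comul := by
    apply lin_ext
    intro n hn
    have h := all_range chkAnti_true hn
    rw [Bool.and_eq_true] at h
    have h1 := Nat.eq_of_beq_eq_true h.1
    have h2 : (fun a b => xs (fun i => mask (T i b)) (S a))
        = fun a b => mask ((S a).flatMap fun i => T i b) := by
      funext a b
      rw [xs_mask]
    rw [h2, xsp_mask (fun a b => (S a).flatMap fun i => T i b)] at h1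
    have h3 := ev_eq_of_mask (add_self_zero k) (e k) h1
    rw [LinearMap.comp_apply, LinearMap.comp_apply, LinearMap.comp_apply, unit_e k hn, ← h3,
      ev_flatMap_pair, comul_e, map_evp, map_evp]
    congr 1
    funext a b
    rw [LinearMap.rTensor_tmul, LinearMap.mul'_apply, antiL_e, ev_mul_e]
  mul_antipode_lTensor_comul := by
    apply lin_ext
    intro n hn
    have h := all_range chkAnti_true hn
    rw [Bool.and_eq_true] at h
    have h1 := Nat.eq_of_beq_eq_true h.2
    have h2 : (fun a b => xs (fun i => mask (T a i)) (S b))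
        = fun a b => mask ((S b).flatMap fun i => T a i) := by
      funext a b
      rw [xs_mask]
    rw [h2, xsp_mask (fun a b => (S b).flatMap fun i => T a i)] at h1
    have h3 := ev_eq_of_mask (add_self_zero k) (e k) h1
    rw [LinearMap.comp_apply, LinearMap.comp_apply, LinearMap.comp_apply, unit_e k hn, ← h3,
      ev_flatMap_pair, comul_e, map_evp, map_evp]
    congr 1
    funext a b
    rw [LinearMap.lTensor_tmul, LinearMap.mul'_apply, antiL_e, e_mul_ev]

end

end Pool.Agent.Q19.LH
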